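import Pool.Agent.L0h58.HY.Stm

/-!
# HNKA: independence of the equations with different leading positions
-/

set_option autoImplicit false

namespace Pool.Agent.L0h88.HY

open Finset Polynomial Pool.Agent.L0h58.HY

lemma bpos_lt {K : ℕ} (d : Fin K) (c : Fin 6) : bpos K d c < 6 * K := by
  unfold bpos
  have h1 := d.2
  have h2 : (c : ℕ) * K ≤ 5 * K := Nat.mul_le_mul_right _ (by omega)
  omega

lemma bpos_inj {K : ℕ} {d d' : Fin K} {c c' : Fin 6} (h : bpos K d c = bpos K d' c') : d = d' ∧ c = c' := by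
  unfold bpos at h
  have h1 := d.2
  have h2 := d'.2
  have hK : 0 < K := by omega
  have e1 : ((c : ℕ) * K + (K - 1 - d)) / K = c := by
    rw [Nat.add_comm, Nat.add_mul_div_right _ _ hK, Nat.div_eq_of_lt (by omega), zero_add]
  have e2 : ((c' : ℕ) * K + (K - 1 - d')) / K = c' := by
    rw [Nat.add_comm, Nat.add_mul_div_right _ _ hK, Nat.div_eq_of_lt (by omega), zero_add]
  have hc : (c : ℕ) = c' := by rw [← e1, h, e2]
  have hd : (d : ℕ) = d' := by
    rw [hc] at h
    omega
  exact ⟨Fin.ext hd, Fin.ext hc⟩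

section

variable {F : Type} [Field F] [Algebra (ZMod 2) F] {K ρ : ℕ}
  (e : (Fin ρ → ZMod 2) ≃ₗ[ZMod 2] F) (θ : F)

/-- the functional of a pair `(d, c)` -/
noncomputable def psi (Y : Fin K × Fin 6 × Fin ρ → ZMod 2) (d : Fin K) (c : Fin 6) : F →ₗ[ZMod 2] ZMod 2 :=
  ∑ a : Fin ρ, Y (d, c, a) • ((LinearMap.proj a : (Fin ρ → ZMod 2) →ₗ[ZMod 2] ZMod 2) ∘ₗ e.symm.toLinearMap)

lemma psi_apply (Y : Fin K × Fin 6 × Fin ρ → ZMod 2) (d : Fin K) (c : Fin 6) (z : F) :
    psi e Y d c z = ∑ a : Fin ρ, Y (d, c, a) * e.symm z a := by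
  unfold psi
  rw [LinearMap.sum_apply]
  rfl

lemma dot_eq {n : ℕ} (η : ℕ) (Y : Fin K × Fin 6 × Fin ρ → ZMod 2) (S : ℕ → F) (i : Fin n) :
    Y ⬝ᵥ bhank η e θ S i =
      ∑ d : Fin K, ∑ c : Fin 6, psi e Y d c (θ ^ ((i : ℕ) % η) * S ((i : ℕ) / η + bpos K d c)) := by
  unfold dotProduct bhank
  rw [Fintype.sum_prod_type]
  refine sum_congr rfl fun d _ => ?_
  rw [Fintype.sum_prod_type]
  refine sum_congr rfl fun c _ => ?_
  rw [psi_apply]

lemma symm_pow (hpb : PowBasis e θ) (m : Fin ρ) : e.symm (θ ^ (m : ℕ)) = Pi.single m 1 := by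
  rw [LinearEquiv.symm_apply_eq, hpb, sum_eq_single m]
  · rw [Pi.single_eq_same, one_smul]
  · intro a _ ha
    rw [Pi.single_eq_of_ne ha, zero_smul]
  · intro h
    exact absurd (mem_univ _) h

lemma psi_pow (hpb : PowBasis e θ) (Y : Fin K × Fin 6 × Fin ρ → ZMod 2) (d : Fin K) (c : Fin 6) (m : Fin ρ) :
    psi e Y d c (θ ^ (m : ℕ)) = Y (d, c, m) := by
  rw [psi_apply, symm_pow e θ hpb, sum_eq_single m]
  · rw [Pi.single_eq_same, mul_one]
  · intro a _ ha
    rw [Pi.single_eq_of_ne ha, mul_zero]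
  · intro h
    exact absurd (mem_univ _) h

end

open Classical in
theorem t_HNKA : S_HNKA := by
  intro n η K ρ R t F _ _ _ e θ hpb hη hηρ hR A Y b hl hge hinj
  have hlt : ∀ (i : Fin n) (j : Fin t), (i : ℕ) / η + bpos K (b j).1 (b j).2.1 < R := by
    intro i j
    have h1 := bpos_lt (b j).1 (b j).2.1
    have h2 : (i : ℕ) / η ≤ n / η := Nat.div_le_div_right i.2.le
    omega
  have hi2 : ∀ i : Fin n, (i : ℕ) % η < η := fun i => Nat.mod_lt _ hη
  let f : Fin n × Fin t → Fin R × Fin ρ := fun p =>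
    (⟨(p.1 : ℕ) / η + bpos K (b p.2).1 (b p.2).2.1, hlt p.1 p.2⟩,
      ⟨((b p.2).2.2 : ℕ) - (p.1 : ℕ) % η, lt_of_le_of_lt (Nat.sub_le _ _) (b p.2).2.2.2⟩)
  let ix : Fin R × Fin ρ → ℕ := fun k => (k.1 : ℕ) * ρ + (ρ - 1 - (k.2 : ℕ))
  have hbp : ∀ (i : Fin n) (j : Fin t), bp η ρ i + blead (b j) = ix (f (i, j)) := by
    intro i j
    change (i : ℕ) / η * ρ + (i : ℕ) % η + (bpos K (b j).1 (b j).2.1 * ρ + (ρ - 1 - ((b j).2.2 : ℕ))) =
      ((i : ℕ) / η + bpos K (b j).1 (b j).2.1) * ρ + (ρ - 1 - (((b j).2.2 : ℕ) - (i : ℕ) % η))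
    have h1 := hge j
    have h2 := hi2 i
    have h3 := (b j).2.2.2
    rw [Nat.add_mul]
    omega
  obtain ⟨L, hL⟩ : ∃ L, L = (A ×ˢ (univ : Finset (Fin t))).image f := ⟨_, rfl⟩
  have hLc : L.card = t * A.card := by
    rw [hL, card_image_of_injOn, card_product, card_univ, Fintype.card_fin, mul_comm]
    intro p hp p' hp' h
    rw [mem_coe, mem_product] at hp hp'
    have h1 : bp η ρ p.1 + blead (b p.2) = bp η ρ p'.1 + blead (b p'.2) := by
      rw [hbp, hbp]
      exact congrArg ix h
    obtain ⟨g1, g2⟩ := hinj p.1 hp.1 p.2 p'.1 hp'.1 p'.2 h1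
    exact Prod.ext g1 g2
  have hFc : Fintype.card F = 2 ^ ρ := by
    rw [← Fintype.card_congr e.toEquiv, Fintype.card_fun, ZMod.card, Fintype.card_fin]
  have hle : t * A.card ≤ R * ρ := by
    rw [← hLc]
    have := card_le_univ L
    rwa [Fintype.card_prod, Fintype.card_fin, Fintype.card_fin] at this
  have key : (univ.filter fun S : Fin R → F => ∀ i ∈ A, ∀ j,
      Y j ⬝ᵥ bhank η e θ (extS S) i = 0).card ≤ 2 ^ (R * ρ - t * A.card) := by
    have h1 : Fintype.card (↥(Lᶜ) → ZMod 2) = 2 ^ (R * ρ - t * A.card) := by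
      rw [Fintype.card_fun, ZMod.card, Fintype.card_coe, card_compl, Fintype.card_prod, Fintype.card_fin,
        Fintype.card_fin, hLc]
    rw [← h1, ← card_univ]
    apply card_le_card_of_injOn (fun S => fun k : ↥(Lᶜ) => e.symm (S k.1.1) k.1.2)
    · intro S _
      exact mem_coe.2 (mem_univ _)
    · intro S hS S' hS' h
      rw [mem_coe, mem_filter] at hS hS'
      by_contra hne
      let u : Fin R → Fin ρ → ZMod 2 := fun j' => e.symm (S j' - S' j')
      have hD : (univ.filter fun k : Fin R × Fin ρ => u k.1 k.2 ≠ 0).Nonempty := by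
        by_contra h0
        rw [not_nonempty_iff_eq_empty, filter_eq_empty_iff] at h0
        apply hne
        funext j'
        have h2 : u j' = 0 := funext fun a => by
          have := h0 (mem_univ (j', a))
          simpa using this
        have h3 : S j' - S' j' = 0 := by
          rw [← e.symm.map_eq_zero_iff]
          exact h2
        exact sub_eq_zero.1 h3
      obtain ⟨k0, hk0, hmin⟩ := exists_min_image _ ix hD
      have hk0' := (mem_filter.1 hk0).2
      have hzero : ∀ k : Fin R × Fin ρ, ix k < ix k0 → u k.1 k.2 = 0 := by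
        intro k hk
        by_contra h2
        have := hmin k (mem_filter.2 ⟨mem_univ _, h2⟩)
        omega
      have hkL : k0 ∈ L := by
        by_contra h0
        apply hk0'
        have h2 := congrFun h ⟨k0, mem_compl.2 h0⟩
        change e.symm (S k0.1) k0.2 = e.symm (S' k0.1) k0.2 at h2
        change e.symm (S k0.1 - S' k0.1) k0.2 = 0
        rw [map_sub, Pi.sub_apply, h2, sub_self]
      rw [hL, mem_image] at hkL
      obtain ⟨⟨i, j⟩, hp, hpe⟩ := hkL
      rw [mem_product] at hp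
      have q1 : (k0.1 : ℕ) = (i : ℕ) / η + bpos K (b j).1 (b j).2.1 := by
        rw [← hpe]
      have q2 : (k0.2 : ℕ) = ((b j).2.2 : ℕ) - (i : ℕ) % η := by
        rw [← hpe]
      have hgej := hge j
      have hi2i := hi2 i
      have ha0 := (b j).2.2.2
      -- the difference of the equations
      have e1 := hS.2 i hp.1 j
      have e2 := hS'.2 i hp.1 j
      rw [dot_eq] at e1 e2
      have e3 : ∑ d : Fin K, ∑ c : Fin 6, psi e (Y j) d c
          (θ ^ ((i : ℕ) % η) * (extS S ((i : ℕ) / η + bpos K d c) - extS S' ((i : ℕ) / η + bpos K d c))) = 0 := by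
        rw [← sub_self (0 : ZMod 2)]
        nth_rw 1 [← e1]
        rw [← e2, ← sum_sub_distrib]
        refine sum_congr rfl fun d _ => ?_
        rw [← sum_sub_distrib]
        refine sum_congr rfl fun c _ => ?_
        rw [mul_sub, map_sub]
      have hext : ∀ (m : ℕ) (hm : m < R), extS S m - extS S' m = e (u ⟨m, hm⟩) := by
        intro m hm
        unfold extS
        rw [dif_pos hm, dif_pos hm]
        exact (e.apply_symm_apply _).symm
      -- only the pair of the leading position counts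
      have hother : ∀ (d : Fin K) (c : Fin 6), (d, c) ≠ ((b j).1, (b j).2.1) → psi e (Y j) d c
          (θ ^ ((i : ℕ) % η) * (extS S ((i : ℕ) / η + bpos K d c) - extS S' ((i : ℕ) / η + bpos K d c))) = 0 := by
        intro d c hdc
        rcases lt_trichotomy (bpos K d c) (bpos K (b j).1 (b j).2.1) with h3 | h3 | h3
        · have hm : (i : ℕ) / η + bpos K d c < R := by
            have := hlt i j
            omega
          have h4 : u ⟨(i : ℕ) / η + bpos K d c, hm⟩ = 0 := by
            funext a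
            refine hzero (⟨(i : ℕ) / η + bpos K d c, hm⟩, a) ?_
            change ((i : ℕ) / η + bpos K d c) * ρ + (ρ - 1 - (a : ℕ)) < (k0.1 : ℕ) * ρ + (ρ - 1 - (k0.2 : ℕ))
            have h5 : ((i : ℕ) / η + bpos K d c + 1) * ρ ≤ (k0.1 : ℕ) * ρ :=
              Nat.mul_le_mul_right _ (by omega)
            rw [Nat.add_mul, one_mul] at h5
            have := a.2
            omega
          rw [hext _ hm, h4, map_zero, mul_zero, map_zero]
        · obtain ⟨g1, g2⟩ := bpos_inj h3
          exact absurd (Prod.ext g1 g2) hdc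
        · rw [psi_apply]
          refine sum_eq_zero fun a _ => ?_
          rw [(hl j).2 (d, c, a), zero_mul]
          unfold blead
          change bpos K (b j).1 (b j).2.1 * ρ + (ρ - 1 - ((b j).2.2 : ℕ)) < bpos K d c * ρ + (ρ - 1 - (a : ℕ))
          have h5 : (bpos K (b j).1 (b j).2.1 + 1) * ρ ≤ bpos K d c * ρ := Nat.mul_le_mul_right _ h3
          rw [Nat.add_mul, one_mul] at h5
          omega
      have e4 : psi e (Y j) (b j).1 (b j).2.1 (θ ^ ((i : ℕ) % η) *
          (extS S ((i : ℕ) / η + bpos K (b j).1 (b j).2.1) -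
            extS S' ((i : ℕ) / η + bpos K (b j).1 (b j).2.1))) = 0 := by
        rw [← e3, sum_eq_single (b j).1, sum_eq_single (b j).2.1]
        · intro c _ hc
          exact hother _ _ fun h0 => hc (congrArg Prod.snd h0)
        · intro h0
          exact absurd (mem_univ _) h0
        · intro d _ hd
          exact sum_eq_zero fun c _ => hother _ _ fun h0 => hd (congrArg Prod.fst h0)
        · intro h0
          exact absurd (mem_univ _) h0
      have hk1 : (⟨(i : ℕ) / η + bpos K (b j).1 (b j).2.1, hlt i j⟩ : Fin R) = k0.1 := Fin.ext q1.symm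
      rw [hext _ (hlt i j), hk1, hpb, mul_sum, map_sum, sum_eq_single k0.2] at e4
      · have h5 : θ ^ ((i : ℕ) % η) * u k0.1 k0.2 • θ ^ (k0.2 : ℕ) =
            u k0.1 k0.2 • θ ^ (((b j).2.2 : Fin ρ) : ℕ) := by
          rw [mul_smul_comm, ← pow_add]
          congr 2
          omega
        rw [h5, map_smul, psi_pow e θ hpb, smul_eq_mul] at e4
        rcases mul_eq_zero.1 e4 with h6 | h6
        · exact hk0' h6
        · exact (hl j).1 h6
      · intro a _ ha
        rw [mul_smul_comm, map_smul, smul_eq_mul]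
        rcases lt_trichotomy (a : ℕ) (k0.2 : ℕ) with h6 | h6 | h6
        · have h7 : (i : ℕ) % η + (a : ℕ) < ρ := by omega
          rw [← pow_add]
          have h8 := psi_pow e θ hpb (Y j) (b j).1 (b j).2.1 ⟨(i : ℕ) % η + (a : ℕ), h7⟩
          change psi e (Y j) (b j).1 (b j).2.1 (θ ^ ((i : ℕ) % η + (a : ℕ))) = _ at h8
          rw [h8, (hl j).2, mul_zero]
          unfold blead
          change bpos K (b j).1 (b j).2.1 * ρ + (ρ - 1 - ((b j).2.2 : ℕ)) <
            bpos K (b j).1 (b j).2.1 * ρ + (ρ - 1 - ((i : ℕ) % η + (a : ℕ)))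
          omega
        · exact absurd (Fin.ext h6) ha
        · rw [hzero (k0.1, a), zero_mul]
          change (k0.1 : ℕ) * ρ + (ρ - 1 - (a : ℕ)) < (k0.1 : ℕ) * ρ + (ρ - 1 - (k0.2 : ℕ))
          have := a.2
          omega
      · intro h0
        exact absurd (mem_univ _) h0
  calc _ ≤ 2 ^ (R * ρ - t * A.card) * 2 ^ (t * A.card) := Nat.mul_le_mul_right _ key
    _ = Fintype.card F ^ R := by
      rw [← pow_add, hFc, ← pow_mul]
      congr 1
      rw [mul_comm ρ R]
      omega

end Pool.Agent.L0h88.HY
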